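import Pool.Agent.Lib.FMK60.MainK

set_option autoImplicit false
open scoped Classical
open NumberField

namespace Pool.Agent.Results.MP_4a0cc8_nt.AlmostAllFixed

/-- The group of points over `K̄` of the curve `y² = x³ + Ax + B`, where `A, B` are in `K`. -/
abbrev Pts {K : Type*} [Field K] (A B : K) : Type _ :=
  ((WeierstrassCurve.mk 0 0 0 A B : WeierstrassCurve K).baseChange
    (AlgebraicClosure K)).toAffine.Point

/-- The points of `y² = x³ + Ax + B` over `K̄` killed by `n`. -/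
abbrev Tors {K : Type*} [Field K] (A B : K) (n : ℕ) : Type _ :=
  Submodule.torsionBy ℤ (Pts A B) (n : ℤ)

/-- The action of a Galois automorphism on the points. -/
noncomputable abbrev gal {K : Type*} [Field K] {A B : K}
    (σ : AlgebraicClosure K ≃ₐ[K] AlgebraicClosure K) (P : Pts A B) : Pts A B :=
  WeierstrassCurve.Affine.Point.map
    (W' := (WeierstrassCurve.mk 0 0 0 A B : WeierstrassCurve K).toAffine) σ.toAlgHom P

/-- Every Galois automorphism which acts trivially on the `p`-torsion of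
`E₂ : y² = x³ + A₂x + B₂` acts on the `p`-torsion of `E₁ : y² = x³ + A₁x + B₁` by multiplication
by an integer. -/
def ScalarOn {K : Type*} [Field K] (A₁ B₁ A₂ B₂ : K) (p : ℕ) : Prop :=
  ∀ σ : AlgebraicClosure K ≃ₐ[K] AlgebraicClosure K,
    (∀ P : Pts A₂ B₂, p • P = 0 → gal σ P = P) →
    ∃ c : ℕ, ∀ P : Pts A₁ B₁, p • P = 0 → gal σ P = c • P

/-- The `n`-torsion groups of `y² = x³ + A₁x + B₁` and `y² = x³ + A₂x + B₂` are isomorphic as
Galois modules. -/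
def Congruent {K : Type*} [Field K] (A₁ B₁ A₂ B₂ : K) (n : ℕ) : Prop :=
  ∃ φ : Tors A₁ B₁ n ≃+ Tors A₂ B₂ n,
    ∀ σ : AlgebraicClosure K ≃ₐ[K] AlgebraicClosure K, ∀ P Q : Tors A₁ B₁ n,
      Q.1 = gal σ P.1 → (φ Q).1 = gal σ (φ P).1

/-- **Q1 for a fixed curve and almost all other curves, with the bound `n₀ = 2`.** Let `K` be a
number field of degree `d`, `a ≥ 1`, `c ≥ 0` and `ε > 0`. There is `C` such that for every
`T ≥ 1` and every elliptic curve `E₀ : y² = x³ + A₀x + B₀` with `A₀, B₀` algebraic integers of `K`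
whose conjugates are at most `a T^c` in absolute value, for all but at most `C T^(8d + ε)` of the
elliptic curves `E : y² = x³ + Ax + B` with `A, B` algebraic integers of `K`, `|σ(A)| ≤ T⁴`,
`|σ(B)| ≤ T⁶` for all `σ : K → ℂ` (a box with about `T^(10d)` elements) the following holds:

* for every prime `p` there is a Galois automorphism acting trivially on `E₀[p]`, but not acting
  on `E[p]` by multiplication by an integer;
* `E[n]` and `E₀'[n]` are not isomorphic as Galois modules, for any `n ≥ 2` and any quadratic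
  twist `E₀'` of `E₀` over `K` (including `E₀` itself). -/
theorem result (K : Type*) [Field K] [NumberField K] (a c ε : ℝ) (ha : 1 ≤ a) (hc : 0 ≤ c)
    (hε : 0 < ε) :
    ∃ C : ℝ, ∀ T : ℝ, 1 ≤ T → ∀ A₀ B₀ : 𝓞 K, 4 * A₀ ^ 3 + 27 * B₀ ^ 2 ≠ 0 →
      (∀ σ : K →+* ℂ, ‖σ A₀‖ ≤ a * T ^ c ∧ ‖σ B₀‖ ≤ a * T ^ c) →
      ∃ S : Finset (𝓞 K × 𝓞 K), (S.card : ℝ) ≤ C * T ^ (8 * (Module.finrank ℚ K : ℝ) + ε) ∧
      ∀ A B : 𝓞 K, (∀ σ : K →+* ℂ, ‖σ A‖ ≤ T ^ 4 ∧ ‖σ B‖ ≤ T ^ 6) →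
        4 * A ^ 3 + 27 * B ^ 2 ≠ 0 → (A, B) ∉ S →
        (∀ p : ℕ, p.Prime → ¬ ScalarOn (A : K) B A₀ B₀ p) ∧
        (∀ t : K, t ≠ 0 → ∀ n : ℕ, 2 ≤ n → ¬ Congruent (A : K) B (t ^ 2 * A₀) (t ^ 3 * B₀) n) := by
  obtain ⟨C, hC⟩ := Pool.Agent.Lib.FMK60.main_fixed (K := K) (AlgebraicClosure K) a c ε ha hc hε
  refine ⟨C, fun T hT A₀ B₀ h0 hσ => ?_⟩
  obtain ⟨S, hS, h⟩ := hC T hT (A₀, B₀) h0 (fun σ => (hσ σ).1) (fun σ => (hσ σ).2)
  refine ⟨S, hS, fun A B h1 h2 h3 => ?_⟩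
  exact h (A, B) ⟨fun σ => (h1 σ).1, fun σ => (h1 σ).2⟩ h2 h3

end Pool.Agent.Results.MP_4a0cc8_nt.AlmostAllFixed
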