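import Pool.Agent.Lib.FMK60.MainK

set_option autoImplicit false
open scoped Classical
open NumberField

namespace Pool.Agent.Results.MP_4a0cc8_nt.AlmostAllUniform

/-- The group of points over `K̄` of the curve `y² = x³ + Ax + B`, where `A, B` are in `K`. -/
abbrev Pts {K : Type*} [Field K] (A B : K) : Type _ :=
  ((WeierstrassCurve.mk 0 0 0 A B : WeierstrassCurve K).baseChange
    (AlgebraicClosure K)).toAffine.Point

/-- The points of `y² = x³ + Ax + B` over `K̄` killed by `n`. -/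
abbrev Tors {K : Type*} [Field K] (A B : K) (n : ℕ) : Type _ :=
  Submodule.torsionBy ℤ (Pts A B) (n : ℤ)

/-- The action of a Galois automorphism on the points. -/
noncomputable abbrev gal {K : Type*} [Field K] {A B : K}
    (σ : AlgebraicClosure K ≃ₐ[K] AlgebraicClosure K) (P : Pts A B) : Pts A B :=
  WeierstrassCurve.Affine.Point.map
    (W' := (WeierstrassCurve.mk 0 0 0 A B : WeierstrassCurve K).toAffine) σ.toAlgHom P

/-- Every Galois automorphism which acts trivially on the `p`-torsion of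
`E₂ : y² = x³ + A₂x + B₂` acts on the `p`-torsion of `E₁ : y² = x³ + A₁x + B₁` by multiplication
by an integer. -/
def ScalarOn {K : Type*} [Field K] (A₁ B₁ A₂ B₂ : K) (p : ℕ) : Prop :=
  ∀ σ : AlgebraicClosure K ≃ₐ[K] AlgebraicClosure K,
    (∀ P : Pts A₂ B₂, p • P = 0 → gal σ P = P) →
    ∃ c : ℕ, ∀ P : Pts A₁ B₁, p • P = 0 → gal σ P = c • P

/-- The `n`-torsion groups of `y² = x³ + A₁x + B₁` and `y² = x³ + A₂x + B₂` are isomorphic as
Galois modules. -/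
def Congruent {K : Type*} [Field K] (A₁ B₁ A₂ B₂ : K) (n : ℕ) : Prop :=
  ∃ φ : Tors A₁ B₁ n ≃+ Tors A₂ B₂ n,
    ∀ σ : AlgebraicClosure K ≃ₐ[K] AlgebraicClosure K, ∀ P Q : Tors A₁ B₁ n,
      Q.1 = gal σ P.1 → (φ Q).1 = gal σ (φ P).1

/-- The curve `y² = x³ + Ax + B` has integral coefficients whose conjugates satisfy
`|σ(A)| ≤ T⁴`, `|σ(B)| ≤ T⁶`, and it is nonsingular. -/
def InBox {K : Type*} [Field K] (T : ℝ) (A B : 𝓞 K) : Prop :=
  (∀ σ : K →+* ℂ, ‖σ A‖ ≤ T ^ 4 ∧ ‖σ B‖ ≤ T ^ 6) ∧ 4 * A ^ 3 + 27 * B ^ 2 ≠ 0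

/-- **Q1 for almost all curves, against all curves of comparable height.** Let `K` be a number
field of degree `d`, `1 ≤ κ < 9/8` and `ε > 0`. There is `C` such that for every `T ≥ 1`, for all
but at most `C T^(10d - (9 - 8κ)/6 + ε)` of the elliptic curves `E₁ : y² = x³ + A₁x + B₁` with
`A₁, B₁` algebraic integers of `K`, `|σ(A₁)| ≤ T⁴`, `|σ(B₁)| ≤ T⁶` for all `σ : K → ℂ` (a box with
about `T^(10d)` elements), the following holds for every elliptic curve `E₂ : y² = x³ + A₂x + B₂`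
with `A₂, B₂` algebraic integers of `K`, `|σ(A₂)| ≤ T^(4κ)`, `|σ(B₂)| ≤ T^(6κ)` for all `σ`:

* if, for some prime `p`, every Galois automorphism acting trivially on `E₂[p]` acts on `E₁[p]` by
  multiplication by an integer, then `E₁` and `E₂` have the same `j`-invariant;
* let `E` be any quadratic twist over `K` of `E₂` (including `E₂` itself), of arbitrary height. If
  `E₁[n]` and `E[n]` are isomorphic Galois modules for some `n ≥ 2`, then `E₁` and `E` have the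
  same `j`-invariant, and if moreover `n` is divisible by an odd prime, then `E₁` and `E` are
  isomorphic over `K`. -/
theorem result (K : Type*) [Field K] [NumberField K] (κ ε : ℝ) (hκ : 1 ≤ κ) (hκ' : κ < 9 / 8)
    (hε : 0 < ε) :
    ∃ C : ℝ, ∀ T : ℝ, 1 ≤ T → ∃ S : Finset (𝓞 K × 𝓞 K),
      (S.card : ℝ) ≤ C * T ^ (10 * (Module.finrank ℚ K : ℝ) - (9 - 8 * κ) / 6 + ε) ∧
      ∀ A₁ B₁ : 𝓞 K, InBox T A₁ B₁ → (A₁, B₁) ∉ S →
      ∀ A₂ B₂ : 𝓞 K, InBox (T ^ κ) A₂ B₂ →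
        (∀ p : ℕ, p.Prime → ScalarOn (A₁ : K) B₁ A₂ B₂ p → A₁ ^ 3 * B₂ ^ 2 = A₂ ^ 3 * B₁ ^ 2) ∧
        (∀ t : K, t ≠ 0 → ∀ n : ℕ, 2 ≤ n → Congruent (A₁ : K) B₁ (t ^ 2 * A₂) (t ^ 3 * B₂) n →
          A₁ ^ 3 * B₂ ^ 2 = A₂ ^ 3 * B₁ ^ 2 ∧
          ((∃ p : ℕ, p.Prime ∧ p ≠ 2 ∧ p ∣ n) →
            ∃ r : K, r ≠ 0 ∧ t ^ 2 * A₂ = r ^ 4 * A₁ ∧ t ^ 3 * B₂ = r ^ 6 * B₁)) := by
  obtain ⟨C, hC⟩ := Pool.Agent.Lib.FMK60.main_uniform (K := K) (AlgebraicClosure K) κ ε hκ hκ' hε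
  refine ⟨C, fun T hT => ?_⟩
  obtain ⟨S, hS, h⟩ := hC T hT
  refine ⟨S, hS, fun A₁ B₁ h1 h1S A₂ B₂ h2 => ?_⟩
  exact h (A₁, B₁) ⟨fun σ => (h1.1 σ).1, fun σ => (h1.1 σ).2⟩ h1.2 h1S (A₂, B₂)
    ⟨fun σ => (h2.1 σ).1, fun σ => (h2.1 σ).2⟩ h2.2

end Pool.Agent.Results.MP_4a0cc8_nt.AlmostAllUniform
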