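import Pool.Agent.Lib.MP_4a0cc8_ntC.Fin
import Pool.Agent.Lib.MP_4a0cc8_ntC.Glue

set_option autoImplicit false
open scoped Classical
open NumberField

namespace Pool.Agent.Results.MP_4a0cc8_nt.FewExceptions

/-- The group of points over `K̄` of the curve `y² = x³ + Ax + B`, where `A, B` are in `K`. -/
abbrev Pts {K : Type*} [Field K] (A B : K) : Type _ :=
  ((WeierstrassCurve.mk 0 0 0 A B : WeierstrassCurve K).baseChange
    (AlgebraicClosure K)).toAffine.Point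

/-- The points of `y² = x³ + Ax + B` over `K̄` killed by `n`. -/
abbrev Tors {K : Type*} [Field K] (A B : K) (n : ℕ) : Type _ :=
  Submodule.torsionBy ℤ (Pts A B) (n : ℤ)

/-- The action of a Galois automorphism on the points. -/
noncomputable abbrev gal {K : Type*} [Field K] {A B : K}
    (σ : AlgebraicClosure K ≃ₐ[K] AlgebraicClosure K) (P : Pts A B) : Pts A B :=
  WeierstrassCurve.Affine.Point.map
    (W' := (WeierstrassCurve.mk 0 0 0 A B : WeierstrassCurve K).toAffine) σ.toAlgHom P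

/-- The `n`-torsion groups of `y² = x³ + A₁x + B₁` and `y² = x³ + A₂x + B₂` are isomorphic as
Galois modules. -/
def Congruent {K : Type*} [Field K] (A₁ B₁ A₂ B₂ : K) (n : ℕ) : Prop :=
  ∃ φ : Tors A₁ B₁ n ≃+ Tors A₂ B₂ n,
    ∀ σ : AlgebraicClosure K ≃ₐ[K] AlgebraicClosure K, ∀ P Q : Tors A₁ B₁ n,
      Q.1 = gal σ P.1 → (φ Q).1 = gal σ (φ P).1

/-- **Q1 with very few exceptions, uniformly in `E₀`.** Let `K` be a number field and `ε > 0`. There are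
`n₀` and `C` such that for every `T ≥ 1` and every elliptic curve `E₀ : y² = x³ + A₀x + B₀` with
`A₀, B₀` algebraic integers of `K` there is a set `S` of at most
`C |Norm(4A₀³ + 27B₀²)|^C T^ε` pairs `(A₁, B₁)` of algebraic integers with the following property. Let
`E : y² = x³ + Ax + B` be an elliptic curve with `A, B` algebraic integers of `K`, `|σ(A)| ≤ T⁴`,
`|σ(B)| ≤ T⁶` for all `σ : K → ℂ`, let `t ≠ 0` be in `K` and `n ≥ n₀`. If `E[n]` and `E₀'[n]` are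
isomorphic Galois modules, `E₀'` the quadratic twist of `E₀` by `t`, then the quadratic twist of `E` by
`t` is isomorphic over `K` to `y² = x³ + A₁x + B₁` for a pair `(A₁, B₁)` of `S`. -/
theorem result (K : Type*) [Field K] [NumberField K] (ε : ℝ) (hε : 0 < ε) :
    ∃ (n₀ : ℕ) (C : ℝ), ∀ T : ℝ, 1 ≤ T → ∀ A₀ B₀ : 𝓞 K, 4 * A₀ ^ 3 + 27 * B₀ ^ 2 ≠ 0 →
      ∃ S : Finset (𝓞 K × 𝓞 K),
        (S.card : ℝ) ≤ C * |(Algebra.norm ℤ (4 * A₀ ^ 3 + 27 * B₀ ^ 2) : ℝ)| ^ C * T ^ ε ∧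
      ∀ A B : 𝓞 K, (∀ σ : K →+* ℂ, ‖σ A‖ ≤ T ^ 4 ∧ ‖σ B‖ ≤ T ^ 6) →
        4 * A ^ 3 + 27 * B ^ 2 ≠ 0 → ∀ t : K, t ≠ 0 → ∀ n : ℕ, n₀ ≤ n →
        Congruent (A : K) B (t ^ 2 * A₀) (t ^ 3 * B₀) n →
        ∃ A₁ B₁ : 𝓞 K, (A₁, B₁) ∈ S ∧
          ∃ r : K, r ≠ 0 ∧ t ^ 2 * A = r ^ 4 * A₁ ∧ t ^ 3 * B = r ^ 6 * B₁ := by
  obtain ⟨n₀, C, -, -, h⟩ := Pool.Agent.Lib.MP_4a0cc8_ntC.tc_main (K := K)
    (Ω := AlgebraicClosure K) (Pool.Agent.Lib.MP_4a0cc8_ntC.tc_loc1 K _)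
    (Pool.Agent.Lib.MP_4a0cc8_ntC.tc_loc2 K _) ε hε
  refine ⟨n₀, C, fun T hT A₀ B₀ h0 => ?_⟩
  obtain ⟨S, hS, h⟩ := h T hT (A₀, B₀) h0
  refine ⟨S, ?_, fun A B hAB hD t ht n hn hc => ?_⟩
  · refine hS.trans_eq ?_
    congr 2
    rw [Ideal.absNorm_span_singleton, Nat.cast_natAbs, Int.cast_abs]
    rfl
  · obtain ⟨z', hz', r, hr, e1, e2⟩ :=
      h (A, B) ⟨fun σ => (hAB σ).1, fun σ => (hAB σ).2⟩ hD t ht n hn hc
    exact ⟨z'.1, z'.2, hz', r, hr, e1, e2⟩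

end Pool.Agent.Results.MP_4a0cc8_nt.FewExceptions
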