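import Pool.Agent.Lib.EC60.Fin

set_option autoImplicit false
open scoped Classical

namespace Pool.Agent.Results.MP_4a0cc8_nt.SparseCongruence

/-- Let `K` be a number field, `E : y² = x³ + Ax + B` and `E₀ : y² = x³ + A₀x + B₀` elliptic curves
over `K`, `n ≥ 1`, and `f : E[n] → E₀[n]` a Galois-equivariant group isomorphism. Let `u, v` be
polynomials over `K` of degree at most `d`, not both zero, and let `S` be a set of nonzero points
`P` of `E[n]` with `u(x(P)) = x(f(P)) v(x(P))`. If `16 d n² + 18|S| + 9 < |S|²`, then `E` and `E₀`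
are isogenous over `K`. -/
theorem result (K : Type*) [Field K] [NumberField K] (n : ℕ) (hn : 1 ≤ n) (d : ℕ)
    (A B A₀ B₀ : K) (h₁ : 4 * A ^ 3 + 27 * B ^ 2 ≠ 0) (h₂ : 4 * A₀ ^ 3 + 27 * B₀ ^ 2 ≠ 0)
    (f : ((WeierstrassCurve.mk 0 0 0 A B : WeierstrassCurve K).baseChange
            (AlgebraicClosure K)).toAffine.Point →
          ((WeierstrassCurve.mk 0 0 0 A₀ B₀ : WeierstrassCurve K).baseChange
            (AlgebraicClosure K)).toAffine.Point)
    (hadd : ∀ P Q, n • P = 0 → n • Q = 0 → f (P + Q) = f P + f Q)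
    (hbij : Set.BijOn f {P | n • P = 0} {Q | n • Q = 0})
    (heq : ∀ (σ : AlgebraicClosure K ≃ₐ[K] AlgebraicClosure K) P, n • P = 0 →
      f (WeierstrassCurve.Affine.Point.map (σ : AlgebraicClosure K →ₐ[K] AlgebraicClosure K) P) =
        WeierstrassCurve.Affine.Point.map (σ : AlgebraicClosure K →ₐ[K] AlgebraicClosure K) (f P))
    (u v : Polynomial K) (hu : u.natDegree ≤ d) (hv : v.natDegree ≤ d) (huv : u ≠ 0 ∨ v ≠ 0)
    (S : Finset ((WeierstrassCurve.mk 0 0 0 A B : WeierstrassCurve K).baseChange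
            (AlgebraicClosure K)).toAffine.Point)
    (hS : ∀ P ∈ S, n • P = 0 ∧ P ≠ 0 ∧ ∀ x y h x' y' h',
      P = WeierstrassCurve.Affine.Point.some x y h →
      f P = WeierstrassCurve.Affine.Point.some x' y' h' →
      Polynomial.aeval x u = x' * Polynomial.aeval x v)
    (hcard : 16 * d * n ^ 2 + 18 * S.card + 9 < S.card ^ 2) :
    ∃ a b : RatFunc K, (∀ c : K, a ≠ RatFunc.C c) ∧
      (RatFunc.X ^ 3 + RatFunc.C A * RatFunc.X + RatFunc.C B) * b ^ 2
        = a ^ 3 + RatFunc.C A₀ * a + RatFunc.C B₀ := by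
  have hf := Pool.Agent.Lib.EC60.torsHom_of_bijOn (K := K) (L := AlgebraicClosure K)
    (W₁ := WeierstrassCurve.mk 0 0 0 A B) (W₂ := WeierstrassCurve.mk 0 0 0 A₀ B₀) hadd hbij
  exact Pool.Agent.Lib.EC60.thm_sparse (K := K) (L := AlgebraicClosure K)
    (W₁ := WeierstrassCurve.mk 0 0 0 A B) (W₂ := WeierstrassCurve.mk 0 0 0 A₀ B₀)
    h₁ h₂ hn hf heq hu hv (by tauto) S
    (fun P hP => ⟨(hS P hP).1, (hS P hP).2.1,
      Pool.Agent.Lib.EC60.agree_of hf (hS P hP).1 (hS P hP).2.1 (hS P hP).2.2⟩) hcard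

end Pool.Agent.Results.MP_4a0cc8_nt.SparseCongruence
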